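import Pool.Agent.H38.TT.LemL
import Pool.Agent.H55.TT.PinchC
import Pool.Agent.H85.TT.PP
import Pool.Agent.H86.TT.Map

/-!
A finite complex over the pinched category whose image in the ultraproduct category is
contractible has a contractible image in the weight zero category.
-/

open CategoryTheory CategoryTheory.Limits MonoidalCategory Filter

namespace Pool.Agent.H39.TT

open Pool.Agent.H55.TT Pool.Agent.H75.TT

/-! ### Linear algebra -/

section linalg

variable {E : Type} [Fintype E] [DecidableEq E]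

/-- The inverse of a block diagonal matrix is block diagonal. -/
lemma inv_diag {γ : Type} (c : E → γ) {A : Matrix E E ℝ}
    (hA : ∀ e e', A e e' ≠ 0 → c e = c e') : ∀ e e', A⁻¹ e e' ≠ 0 → c e = c e' := by
  classical
  by_cases hu : IsUnit A.det
  · intro e e' hne
    by_contra hc
    apply hne
    let P : Matrix E E ℝ := Matrix.diagonal (fun x => if c x = c e then 1 else 0)
    have hcomm : P * A = A * P := by
      ext x y
      rw [Matrix.diagonal_mul, Matrix.mul_diagonal]
      by_cases hxy : A x y = 0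
      · rw [hxy]; simp
      · rw [hA x y hxy]; ring
    have h2 : P * A⁻¹ = A⁻¹ * P := by
      calc P * A⁻¹ = A⁻¹ * A * P * A⁻¹ := by rw [Matrix.nonsing_inv_mul _ hu, one_mul]
        _ = A⁻¹ * (P * A) * A⁻¹ := by rw [hcomm, ← mul_assoc]
        _ = A⁻¹ * P * (A * A⁻¹) := by simp only [mul_assoc]
        _ = A⁻¹ * P := by rw [Matrix.mul_nonsing_inv _ hu, mul_one]
    have h3 := congrFun (congrFun h2 e) e'
    rw [Matrix.diagonal_mul, Matrix.mul_diagonal, if_pos rfl, if_neg (Ne.symm hc), one_mul,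
      mul_zero] at h3
    exact h3
  · intro e e' hne
    exact absurd (by rw [Matrix.nonsing_inv_apply_not_isUnit _ hu]; rfl) hne

/-- The inverse of an invariant matrix is invariant. -/
lemma inv_perm (π : Equiv.Perm E) {A : Matrix E E ℝ} (hA : ∀ e e', A (π e) (π e') = A e e') :
    ∀ e e', A⁻¹ (π e) (π e') = A⁻¹ e e' := by
  have h1 : A.submatrix π π = A := by ext e e'; exact hA e e'
  have h2 : A⁻¹.submatrix π π = A⁻¹ := by
    rw [← Matrix.inv_submatrix_equiv, h1]
  intro e e'
  exact congrFun (congrFun h2 e) e'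

/-- The Laplacian. -/
noncomputable def lap (D : Matrix E E ℝ) : Matrix E E ℝ :=
  D * D.transpose + D.transpose * D

/-- The contraction given by the adjoint and the Laplacian. -/
noncomputable def ctr (D : Matrix E E ℝ) : Matrix E E ℝ := D.transpose * (lap D)⁻¹

lemma ctr_spec {D : Matrix E E ℝ} (hD : D * D = 0) (hu : IsUnit (lap D)) :
    D * ctr D + ctr D * D = 1 := by
  have hu' : IsUnit (lap D).det := (Matrix.isUnit_iff_isUnit_det _).1 hu
  have h1 : D * lap D = lap D * D := by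
    rw [lap, mul_add, add_mul, ← mul_assoc D D, hD, zero_mul, mul_assoc _ D D, hD, mul_zero,
      zero_add, add_zero, mul_assoc]
  have h2 : (lap D)⁻¹ * D = D * (lap D)⁻¹ := by
    calc (lap D)⁻¹ * D = (lap D)⁻¹ * (D * (lap D * (lap D)⁻¹)) := by
          rw [Matrix.mul_nonsing_inv _ hu', mul_one]
      _ = (lap D)⁻¹ * (lap D * D) * (lap D)⁻¹ := by rw [← h1]; simp only [mul_assoc]
      _ = D * (lap D)⁻¹ := by rw [← mul_assoc, Matrix.nonsing_inv_mul _ hu', one_mul]
  rw [ctr, mul_assoc, h2, ← mul_assoc, ← mul_assoc, ← add_mul]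
  exact Matrix.mul_nonsing_inv _ hu'

lemma mul_label {γ : Type} {c : E → γ} {f g k : γ → γ} {A A' : Matrix E E ℝ}
    (hA : ∀ e e', A e e' ≠ 0 → c e' = f (c e)) (hA' : ∀ e e', A' e e' ≠ 0 → c e' = g (c e))
    (hk : ∀ x, g (f x) = k x) : ∀ e e', (A * A') e e' ≠ 0 → c e' = k (c e) := by
  intro e e' hne
  rw [Matrix.mul_apply] at hne
  obtain ⟨x, _, hx⟩ := Finset.exists_ne_zero_of_sum_ne_zero hne
  rw [hA' x e' (right_ne_zero_of_mul hx), hA e x (left_ne_zero_of_mul hx), hk]

lemma mul_perm (π : Equiv.Perm E) {A A' : Matrix E E ℝ} (hA : ∀ e e', A (π e) (π e') = A e e')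
    (hA' : ∀ e e', A' (π e) (π e') = A' e e') :
    ∀ e e', (A * A') (π e) (π e') = (A * A') e e' := by
  intro e e'
  rw [Matrix.mul_apply, Matrix.mul_apply, ← Equiv.sum_comp π]
  exact Finset.sum_congr rfl fun x _ => by rw [hA, hA']

/-- Labels of the Laplacian. -/
lemma lap_label {γ : Type} {c : E → γ} (f : Equiv.Perm γ) {D : Matrix E E ℝ}
    (hD : ∀ e e', D e e' ≠ 0 → c e' = f (c e)) : ∀ e e', lap D e e' ≠ 0 → c e = c e' := by
  have hT : ∀ e e', D.transpose e e' ≠ 0 → c e' = f.symm (c e) := by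
    intro e e' hne
    rw [hD e' e hne, Equiv.symm_apply_apply]
  intro e e' hne
  by_cases h1 : (D * D.transpose) e e' = 0
  · have h2 : (D.transpose * D) e e' ≠ 0 := by
      intro h2
      apply hne
      rw [lap, Matrix.add_apply, h1, h2, add_zero]
    exact (mul_label (k := id) hT hD (fun x => f.apply_symm_apply x) e e' h2).symm
  · exact (mul_label (k := id) hD hT (fun x => f.symm_apply_apply x) e e' h1).symm

lemma ctr_label {γ : Type} {c : E → γ} (f : Equiv.Perm γ) {D : Matrix E E ℝ}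
    (hD : ∀ e e', D e e' ≠ 0 → c e' = f (c e)) : ∀ e e', ctr D e e' ≠ 0 → c e = f (c e') := by
  intro e e' hne
  have hT : ∀ e e', D.transpose e e' ≠ 0 → c e' = f.symm (c e) := by
    intro e e' hne
    rw [hD e' e hne, Equiv.symm_apply_apply]
  have := mul_label (g := id) (k := f.symm) hT
    (fun e e' h => (inv_diag c (lap_label f hD) e e' h).symm) (fun _ => rfl) e e' hne
  rw [this, Equiv.apply_symm_apply]

lemma ctr_perm (π : Equiv.Perm E) {D : Matrix E E ℝ} (hD : ∀ e e', D (π e) (π e') = D e e') :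
    ∀ e e', ctr D (π e) (π e') = ctr D e e' := by
  have hT : ∀ e e', D.transpose (π e) (π e') = D.transpose e e' := fun e e' => hD e' e
  refine mul_perm π hT (inv_perm π ?_)
  intro e e'
  rw [lap, Matrix.add_apply, Matrix.add_apply, mul_perm π hD hT, mul_perm π hT hD]

end linalg

/-! ### Blocks -/

section level

variable {ι : Type} {X : ι → Obj} {n : ℕ}

/-- The total basis. -/
abbrev EE (n : ℕ) (X : ι → Obj) : Type := Σ i, B n (X i)

/-- The matrix with given blocks. -/
def big (F : ∀ i j, Matrix (B n (X i)) (B n (X j)) ℝ) : Matrix (EE n X) (EE n X) ℝ :=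
  fun e e' => F e.1 e'.1 e.2 e'.2

/-- A block. -/
def blk (A : Matrix (EE n X) (EE n X) ℝ) (i j : ι) : Matrix (B n (X i)) (B n (X j)) ℝ :=
  fun a b => A ⟨i, a⟩ ⟨j, b⟩

lemma blk_apply (A : Matrix (EE n X) (EE n X) ℝ) (i j : ι) (a : B n (X i)) (b : B n (X j)) :
    blk A i j a b = A ⟨i, a⟩ ⟨j, b⟩ := rfl

lemma big_apply (F : ∀ i j, Matrix (B n (X i)) (B n (X j)) ℝ) (e e' : EE n X) :
    big F e e' = F e.1 e'.1 e.2 e'.2 := rfl

lemma blk_big (F : ∀ i j, Matrix (B n (X i)) (B n (X j)) ℝ) (i j : ι) : blk (big F) i j = F i j :=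
  rfl

lemma blk_ext {A A' : Matrix (EE n X) (EE n X) ℝ} (h : ∀ i j, blk A i j = blk A' i j) : A = A' := by
  ext ⟨i, a⟩ ⟨j, b⟩
  exact congrFun (congrFun (h i j) a) b

lemma blk_zero (i j : ι) : blk (0 : Matrix (EE n X) (EE n X) ℝ) i j = 0 := rfl

lemma blk_add (A A' : Matrix (EE n X) (EE n X) ℝ) (i j : ι) :
    blk (A + A') i j = blk A i j + blk A' i j := rfl

lemma blk_mul [Fintype ι] (A A' : Matrix (EE n X) (EE n X) ℝ) (i k : ι) :
    blk (A * A') i k = ∑ j, blk A i j * blk A' j k := by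
  ext a c
  rw [blk_apply, Matrix.mul_apply, Fintype.sum_sigma, Matrix.sum_apply]
  rfl

lemma blk_one_self [DecidableEq ι] (i : ι) : blk (1 : Matrix (EE n X) (EE n X) ℝ) i i = 1 := by
  ext a b
  rw [blk_apply, Matrix.one_apply, Matrix.one_apply]
  by_cases h : a = b
  · rw [if_pos h, if_pos (by rw [h])]
  · rw [if_neg h, if_neg (fun h' => h (by simpa using h'))]

lemma blk_one_ne [DecidableEq ι] {i j : ι} (h : i ≠ j) :
    blk (1 : Matrix (EE n X) (EE n X) ℝ) i j = 0 := by
  ext a b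
  rw [blk_apply, Matrix.one_apply, if_neg, Matrix.zero_apply]
  intro h'
  exact h (congrArg Sigma.fst h')

/-- Weights of the total basis. -/
def wtE (e : EE n X) : Option (Fin n) → ℤ := wt n (X e.1) e.2

/-- The permutations of the total basis. -/
def actE (X : ι → Obj) (σ : Equiv.Perm (Option (Fin n))) : Equiv.Perm (EE n X) :=
  Equiv.sigmaCongrRight fun i => act n σ (X i)

lemma wtE_actE (σ : Equiv.Perm (Option (Fin n))) (e : EE n X) (i : Option (Fin n)) :
    wtE (actE X σ e) (σ i) = wtE e i := wt_act n σ (X e.1) e.2 i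

/-- A matrix is good when it preserves the weights and is invariant. -/
def Good (A : Matrix (EE n X) (EE n X) ℝ) : Prop :=
  (∀ e e', A e e' ≠ 0 → wtE e' = wtE e) ∧ ∀ σ e e', A (actE X σ e) (actE X σ e') = A e e'

lemma good_big {F : ∀ i j, Matrix (B n (X i)) (B n (X j)) ℝ}
    (hF : ∀ i j, F i j ∈ H True n (X i) (X j)) : Good (big F) := by
  refine ⟨fun e e' h => ?_, fun σ e e' => ?_⟩
  · funext i
    exact ((hF e.1 e'.1).1 e.2 e'.2 h i fun _ => trivial).symm
  · exact (hF e.1 e'.1).2 σ (fun _ => trivial) e.2 e'.2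

lemma Good.blk_mem {A : Matrix (EE n X) (EE n X) ℝ} (hA : Good A) (i j : ι) :
    blk A i j ∈ H True n (X i) (X j) := by
  refine ⟨fun a b h k _ => ?_, fun σ _ a b => ?_⟩
  · exact (congrFun (hA.1 ⟨i, a⟩ ⟨j, b⟩ h) k).symm
  · exact hA.2 σ ⟨i, a⟩ ⟨j, b⟩

lemma Good.ctr [Fintype ι] [DecidableEq ι] {A : Matrix (EE n X) (EE n X) ℝ} (hA : Good A) :
    Good (ctr A) := by
  refine ⟨fun e e' h => ?_, fun σ => ctr_perm (actE X σ) (hA.2 σ)⟩
  exact (ctr_label (c := wtE) (Equiv.refl _) hA.1 e e' h).symm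

/-- The level statement. -/
lemma isUnit_lap [Fintype ι] [DecidableEq ι] {N : ℕ} (hN : ∀ i, leaves (X i) ≤ N)
    (hn : 2 * N < n + 1) {D K D0 : Matrix (EE n X) (EE n X) ℝ} (hDD : D * D = 0)
    (hDK : D * K + K * D = 1) (hge : ∀ e e', D e e' ≠ 0 → wtE e none ≤ wtE e' none)
    (hD0 : ∀ e e', D0 e e' = if wtE e none = wtE e' none then D e e' else 0) (h0 : Good D0) :
    IsUnit (lap D0) :=
  Pool.Agent.H38.TT.lemL (EE n X) (Option (Fin n)) none wtE (actE X) wtE_actE N
    (fun e => (card_wt_le n (X e.1) e.2).trans (hN e.1)) (by simpa using hn) D D0 K hDD hDK hge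
    hD0 (fun e e' h => (h0.1 e e' h).symm) h0.2

end level

/-! ### Germs -/

/-- The germ of a sequence, as a morphism. -/
def mo {X Y : Obj} (F : Rw X Y) (hF : ∀ n, F n ∈ H False n X Y) : X ⟶ Y := gm F hF

lemma mo_comp {X Y Z : Obj} (F : Rw X Y) (hF : ∀ n, F n ∈ H False n X Y) (G : Rw Y Z)
    (hG : ∀ n, G n ∈ H False n Y Z) :
    mo F hF ≫ mo G hG = mo (fun n => F n * G n) (fun n => mul_mem (hF n) (hG n)) := rfl

lemma mo_add {X Y : Obj} (F G : Rw X Y) (hF : ∀ n, F n ∈ H False n X Y)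
    (hG : ∀ n, G n ∈ H False n X Y) :
    mo F hF + mo G hG = mo (fun n => F n + G n) (fun n => Submodule.add_mem _ (hF n) (hG n)) := rfl

lemma mo_congr {X Y : Obj} {F G : Rw X Y} {hF : ∀ n, F n ∈ H False n X Y}
    {hG : ∀ n, G n ∈ H False n X Y} (h : ∀ n, F n = G n) : mo F hF = mo G hG := gm_congr h

lemma mo_eq {X Y : Obj} {F G : Rw X Y} {hF : ∀ n, F n ∈ H False n X Y}
    {hG : ∀ n, G n ∈ H False n X Y} :
    mo F hF = mo G hG ↔ ∀ᶠ n in (hyperfilter ℕ : Filter ℕ), F n = G n := gm_eq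

lemma mo_eq_zero {X Y : Obj} {F : Rw X Y} {hF : ∀ n, F n ∈ H False n X Y} :
    mo F hF = 0 ↔ ∀ᶠ n in (hyperfilter ℕ : Filter ℕ), F n = 0 :=
  gm_eq (hG := fun _ => Submodule.zero_mem _)

lemma mo_sum {α : Type} (s : Finset α) {X Y : Obj} (F : α → Rw X Y)
    (hF : ∀ a n, F a n ∈ H False n X Y) :
    ∑ a ∈ s, mo (F a) (hF a) =
      mo (fun n => ∑ a ∈ s, F a n) (fun n => Submodule.sum_mem _ fun a _ => hF a n) := by
  classical
  induction s using Finset.induction_on with
  | empty => rfl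
  | insert a s ha ih =>
    rw [Finset.sum_insert ha, ih, mo_add]
    refine mo_congr fun n => ?_
    rw [Finset.sum_insert ha]

lemma id_eq_mo (X : Obj) : 𝟙 X = mo (fun _ => 1) (fun n => by
    rw [← pm_refl]
    exact pm_mem _ (fun _ => rfl) (fun _ _ => rfl)) := rfl

lemma wA_mo {X Y : Obj} (m : ℤ) (F : Rw X Y) (hF : ∀ n, F n ∈ H False n X Y) :
    wA m (mo F hF) = mo (fun n => wp n m (F n)) (fun n => wp_mem n m (hF n)) := rfl

section germs

variable {ι : Type} [Fintype ι] {X : ι → Obj}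

lemma mul_blk_mem (F G : ∀ i j, Rw (X i) (X j)) (hF : ∀ i j n, F i j n ∈ H False n (X i) (X j))
    (hG : ∀ i j n, G i j n ∈ H False n (X i) (X j)) (i k : ι) (n : ℕ) :
    blk (big (fun i j => F i j n) * big (fun i j => G i j n)) i k ∈ H False n (X i) (X k) := by
  rw [blk_mul]
  exact Submodule.sum_mem _ fun j _ => mul_mem (hF i j n) (hG j k n)

lemma sum_cmp (F G : ∀ i j, Rw (X i) (X j)) (hF : ∀ i j n, F i j n ∈ H False n (X i) (X j))
    (hG : ∀ i j n, G i j n ∈ H False n (X i) (X j)) (i k : ι) :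
    ∑ j, (mo (F i j) (hF i j) ≫ mo (G j k) (hG j k)) =
      mo (fun n => blk (big (fun i j => F i j n) * big (fun i j => G i j n)) i k)
        (mul_blk_mem F G hF hG i k) := by
  refine (mo_sum (Y := X k) Finset.univ (fun j n => F i j n * G j k n)
    (fun j n => mul_mem (hF i j n) (hG j k n))).trans (mo_congr fun n => ?_)
  rw [blk_mul]
  rfl

lemma ev_all {p : ι → ι → ℕ → Prop}
    (h : ∀ i j, ∀ᶠ n in (hyperfilter ℕ : Filter ℕ), p i j n) :
    ∀ᶠ n in (hyperfilter ℕ : Filter ℕ), ∀ i j, p i j n := by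
  rw [Filter.eventually_all]
  intro i
  rw [Filter.eventually_all]
  exact h i

end germs

lemma blk_one_mem {ι : Type} [DecidableEq ι] (n : ℕ) (X : ι → Obj) (i k : ι) :
    blk (1 : Matrix (EE n X) (EE n X) ℝ) i k ∈ H False n (X i) (X k) := by
  by_cases h : i = k
  · subst h
    rw [blk_one_self, ← pm_refl]
    exact pm_mem _ (fun _ => rfl) (fun _ _ => rfl)
  · rw [blk_one_ne h]
    exact Submodule.zero_mem _

/-- The identity matrix of a family. -/
lemma id_m_mo (F : Fam Obj) [DecidableEq F.ι] (i k : F.ι) :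
    (𝟙 F : F ⟶ F).m i k = mo (fun n => blk (1 : Matrix (EE n F.X) (EE n F.X) ℝ) i k)
      (fun n => blk_one_mem n F.X i k) := by
  by_cases h : i = k
  · subst h
    rw [Fam.id_m_self, id_eq_mo]
    exact mo_congr fun n => (blk_one_self i).symm
  · rw [Fam.id_m_ne F h]
    symm
    rw [mo_eq_zero]
    exact Eventually.of_forall fun n => blk_one_ne h

/-- If the image of a finite complex in the ultraproduct category is contractible, then its
image in the weight zero category is contractible. -/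
theorem tors (M : DG pinch.PP.Cat) [Finite M.F.ι]
    (hM : ∃ h : (DG.mapObj pinch.P2 M).F ⟶ (DG.mapObj pinch.P2 M).F,
      Fam.Homog (DG.mapObj pinch.P2 M).deg (DG.mapObj pinch.P2 M).deg (-1) h ∧
      (DG.mapObj pinch.P2 M).d ≫ h + h ≫ (DG.mapObj pinch.P2 M).d = 𝟙 _) :
    ∃ h : (DG.mapObj pinch.P0 M).F ⟶ (DG.mapObj pinch.P0 M).F,
      Fam.Homog (DG.mapObj pinch.P0 M).deg (DG.mapObj pinch.P0 M).deg (-1) h ∧
      (DG.mapObj pinch.P0 M).d ≫ h + h ≫ (DG.mapObj pinch.P0 M).d = 𝟙 _ := by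
  classical
  have : Fintype M.F.ι := Fintype.ofFinite _
  let X : M.F.ι → Obj := fun i => (M.F.X i).of
  obtain ⟨K, _, hK⟩ := hM
  -- representatives
  have r1 : ∀ i j, ∃ (F : Rw (X i) (X j)) (hF : ∀ n, F n ∈ H False n (X i) (X j)),
      (M.d.m i j).f = mo F hF := fun i j => gm_surj _
  choose D hD eD using r1
  have r2 : ∀ i j, ∃ (F : Rw (X i) (X j)) (hF : ∀ n, F n ∈ H False n (X i) (X j)),
      (K.m i j : X i ⟶ X j) = mo F hF := fun i j => gm_surj _
  choose G hG eG using r2
  have r3 : ∀ i j, ∃ (F : Rw (X i) (X j)) (hF : ∀ n, F n ∈ H True n (X i) (X j)),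
      wA 0 (M.d.m i j).f = mo F fun n => H_mono (fun h => h.elim) (hF n) :=
    fun i j => (M.d.m i j).mem.2
  choose D0 hD0' eD0 using r3
  have hD0 : ∀ i j n, D0 i j n ∈ H False n (X i) (X j) :=
    fun i j n => H_mono (fun h => h.elim) (hD0' i j n)
  have good0 : ∀ n, Good (big fun i j => D0 i j n) := fun n => good_big fun i j => hD0' i j n
  -- eventual identities
  have q1 : ∀ᶠ n in (hyperfilter ℕ : Filter ℕ), ∀ i k,
      blk (big (fun i j => D i j n) * big (fun i j => D i j n)) i k = 0 := by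
    refine ev_all fun i k => ?_
    rw [← mo_eq_zero (hF := mul_blk_mem D D hD hD i k), ← sum_cmp D D hD hD]
    have h := congrArg (fun t : M.F ⟶ M.F => (t.m i k).f) M.dd
    simp only [Fam.comp_m_fintype, TensorSub.sum_f, TensorSub.comp_f] at h
    refine Eq.trans ?_ h
    refine Finset.sum_congr rfl fun j _ => ?_
    rw [← eD, ← eD]
  have q2 : ∀ᶠ n in (hyperfilter ℕ : Filter ℕ), ∀ i k,
      blk (big (fun i j => D i j n) * big (fun i j => G i j n)) i k +
      blk (big (fun i j => G i j n) * big (fun i j => D i j n)) i k =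
      blk (1 : Matrix (EE n X) (EE n X) ℝ) i k := by
    refine ev_all fun i k => ?_
    let _ : Fintype (DG.mapObj pinch.P2 M).F.ι := ‹Fintype M.F.ι›
    have h := congrArg (fun t : (DG.mapObj pinch.P2 M).F ⟶ (DG.mapObj pinch.P2 M).F => t.m i k) hK
    simp only [Fam.comp_m_fintype, Fam.add_m] at h
    refine (mo_eq (X := X i) (Y := X k) (F := fun n =>
      blk (big (fun i j => D i j n) * big (fun i j => G i j n)) i k +
      blk (big (fun i j => G i j n) * big (fun i j => D i j n)) i k)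
      (G := fun n => blk (1 : Matrix (EE n X) (EE n X) ℝ) i k)
      (hF := fun n => Submodule.add_mem _ (mul_blk_mem D G hD hG i k n)
        (mul_blk_mem G D hG hD i k n)) (hG := fun n => blk_one_mem n X i k)).1 ?_
    refine Eq.trans ?_ (id_m_mo (DG.mapObj pinch.P2 M).F i k)
    refine Eq.trans ?_ h
    change mo _ _ = _
    rw [← mo_add _ _ (mul_blk_mem D G hD hG i k) (mul_blk_mem G D hG hD i k),
      ← sum_cmp D G hD hG, ← sum_cmp G D hG hD]
    refine congrArg₂ (· + ·) (Finset.sum_congr rfl fun j _ => ?_)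
      (Finset.sum_congr rfl fun j _ => ?_)
    · rw [← eD, ← eG]
      rfl
    · rw [← eD, ← eG]
      rfl
  have q3 : ∀ᶠ n in (hyperfilter ℕ : Filter ℕ), ∀ i j, ∀ a b, D i j n a b ≠ 0 →
      wt n (X i) a none ≤ wt n (X j) b none := by
    refine ev_all fun i j => ?_
    have h1 : ∀ m ∈ Finset.Icc (-((size (X i) + size (X j) : ℕ) : ℤ)) (-1),
        ∀ᶠ n in (hyperfilter ℕ : Filter ℕ), wp n m (D i j n) = 0 := by
      intro m hm
      have h2 : wA m (M.d.m i j).f = 0 :=
        (M.d.m i j).mem.1 m (by have := (Finset.mem_Icc.1 hm).2; omega)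
      rw [eD, wA_mo, mo_eq_zero] at h2
      exact h2
    have h3 := (Filter.eventually_all_finset _).2 h1
    refine h3.mono fun n hn a b hab => ?_
    by_contra hlt
    rw [not_le] at hlt
    have h4 := abs_wt_le n (X i) a none
    have h5 := abs_wt_le n (X j) b none
    rw [abs_le] at h4 h5
    have h6 := congrFun (congrFun (hn (wt n (X j) b none - wt n (X i) a none) (by
      rw [Finset.mem_Icc]
      push_cast
      constructor <;> omega)) a) b
    rw [wp_apply, if_pos rfl] at h6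
    exact hab h6
  have q4 : ∀ᶠ n in (hyperfilter ℕ : Filter ℕ), ∀ i j, wp n 0 (D i j n) = D0 i j n := by
    refine ev_all fun i j => ?_
    have h := eD0 i j
    rw [eD, wA_mo, mo_eq] at h
    exact h
  have q5 : ∀ᶠ n in (hyperfilter ℕ : Filter ℕ), ∀ i k,
      blk (big (fun i j => D0 i j n) * big (fun i j => D0 i j n)) i k = 0 := by
    refine ev_all fun i k => ?_
    rw [← mo_eq_zero (hF := mul_blk_mem D0 D0 hD0 hD0 i k), ← sum_cmp D0 D0 hD0 hD0]
    let _ : Fintype (DG.mapObj pinch.P0 M).F.ι := ‹Fintype M.F.ι›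
    have h := congrArg (fun t : (DG.mapObj pinch.P0 M).F ⟶ (DG.mapObj pinch.P0 M).F => (t.m i k).f)
      (DG.mapObj pinch.P0 M).dd
    simp only [Fam.comp_m_fintype, TensorSub.sum_f, TensorSub.comp_f] at h
    refine Eq.trans ?_ h
    refine Finset.sum_congr rfl fun j _ => ?_
    rw [← eD0, ← eD0]
    rfl
  have q7 : ∀ᶠ n in (hyperfilter ℕ : Filter ℕ), ∀ i j, M.deg j ≠ M.deg i + 1 → D0 i j n = 0 := by
    refine ev_all fun i j => ?_
    by_cases hij : M.deg j = M.deg i + 1
    · exact Eventually.of_forall fun n h => absurd hij h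
    · have h := eD0 i j
      rw [M.hd.m_eq_zero hij] at h
      have h' : wA 0 (0 : X i ⟶ X j) = mo (D0 i j) (hD0 i j) := h
      rw [map_zero] at h'
      exact (mo_eq_zero.1 h'.symm).mono fun n hn _ => hn
  obtain ⟨N, hN⟩ : ∃ N, ∀ i, leaves (X i) ≤ N :=
    ⟨Finset.univ.sup fun i => leaves (X i), fun i => Finset.le_sup (f := fun i => leaves (X i))
      (Finset.mem_univ i)⟩
  have q6 : ∀ᶠ n in (hyperfilter ℕ : Filter ℕ), 2 * N < n + 1 :=
    ((eventually_ge_atTop (2 * N)).filter_mono Nat.hyperfilter_le_atTop).mono fun n hn => by omega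
  have q8 : ∀ᶠ n in (hyperfilter ℕ : Filter ℕ),
      big (fun i j => D0 i j n) * ctr (big fun i j => D0 i j n) +
        ctr (big fun i j => D0 i j n) * big (fun i j => D0 i j n) = 1 := by
    filter_upwards [q1, q2, q3, q4, q5, q6] with n h1 h2 h3 h4 h5 h6
    refine ctr_spec (blk_ext h5) ?_
    refine isUnit_lap hN h6 (D := big fun i j => D i j n) (K := big fun i j => G i j n)
      (blk_ext h1) (blk_ext h2) (fun e e' h => h3 e.1 e'.1 e.2 e'.2 h) (fun e e' => ?_) (good0 n)
    rw [big_apply, ← h4, wp_apply]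
    refine if_congr ?_ rfl rfl
    rw [sub_eq_zero]
    exact eq_comm
  -- the contraction
  let C : ∀ i j, Rw (X i) (X j) := fun i j n => blk (ctr (big fun i j => D0 i j n)) i j
  have hC' : ∀ i j n, C i j n ∈ H True n (X i) (X j) := fun i j n => (good0 n).ctr.blk_mem i j
  have hC : ∀ i j n, C i j n ∈ H False n (X i) (X j) :=
    fun i j n => H_mono (fun h => h.elim) (hC' i j n)
  have hfin : Finite (DG.mapObj pinch.P0 M).F.ι := ‹Finite M.F.ι›
  refine ⟨⟨fun i j => ⟨mo (C i j) (hC i j), ⟨C i j, hC' i j, rfl⟩⟩, fun i => Set.toFinite _⟩, ?_, ?_⟩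
  · intro i j hne
    by_contra hdeg
    apply hne
    apply TensorSub.hom_ext
    change mo (C i j) (hC i j) = 0
    rw [mo_eq_zero]
    refine q7.mono fun n hn => ?_
    ext a b
    by_contra hab
    have := ctr_label (c := fun e : EE n X => M.deg e.1) (Equiv.addRight (1 : ℤ))
      (D := big fun i j => D0 i j n) (fun e e' h => by
        by_contra hd
        apply h
        rw [big_apply, hn e.1 e'.1 hd]
        rfl) ⟨i, a⟩ ⟨j, b⟩ hab
    apply hdeg
    change M.deg j = M.deg i + -1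
    have h' : M.deg i = M.deg j + 1 := this
    omega
  · ext i k
    let _ : Fintype (DG.mapObj pinch.P0 M).F.ι := ‹Fintype M.F.ι›
    rw [Fam.add_m, Fam.comp_m_fintype, Fam.comp_m_fintype, TensorSub.add_f, TensorSub.sum_f,
      TensorSub.sum_f]
    have e1 : ((𝟙 (DG.mapObj pinch.P0 M).F :
        (DG.mapObj pinch.P0 M).F ⟶ (DG.mapObj pinch.P0 M).F).m i k).f =
        mo (fun n => blk (1 : Matrix (EE n X) (EE n X) ℝ) i k) (fun n => blk_one_mem n X i k) := by
      by_cases h : i = k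
      · subst h
        rw [Fam.id_m_self, TensorSub.id_f, id_eq_mo]
        exact mo_congr fun n => (blk_one_self (X := X) i).symm
      · rw [Fam.id_m_ne _ h]
        symm
        refine mo_eq_zero.2 ?_
        exact Eventually.of_forall fun n => blk_one_ne (X := X) h
    have e2 : mo (fun n => blk (1 : Matrix (EE n X) (EE n X) ℝ) i k)
        (fun n => blk_one_mem n X i k) =
        mo (fun n => blk (big (fun i j => D0 i j n) * big (fun i j => C i j n)) i k)
          (mul_blk_mem D0 C hD0 hC i k) +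
        mo (fun n => blk (big (fun i j => C i j n) * big (fun i j => D0 i j n)) i k)
          (mul_blk_mem C D0 hC hD0 i k) := by
      rw [mo_add, mo_eq]
      refine q8.mono fun n hn => ?_
      rw [← hn]
      rfl
    rw [e1, e2, ← sum_cmp D0 C hD0 hC, ← sum_cmp C D0 hC hD0]
    refine congrArg₂ (· + ·) (Finset.sum_congr rfl fun j _ => ?_)
      (Finset.sum_congr rfl fun j _ => ?_)
    · rw [← eD0]
      rfl
    · rw [← eD0]
      rfl

/-- The same statement in the homotopy categories. -/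
theorem tors_isZero (M : DG pinch.PP.Cat) [Finite M.F.ι]
    (hM : IsZero ((T.mapT pinch.P2).obj (T.Q.obj M))) :
    IsZero ((T.mapT pinch.P0).obj (T.Q.obj M)) := by
  obtain ⟨h, hh, e⟩ := tors M (DG.exists_contraction (DG.mapObj pinch.P2 M) hM)
  exact DG.isZero_of_contraction _ h hh e

end Pool.Agent.H39.TT
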